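import Pool.Agent.Helper26_BSN.Rep

/-!
# Squad BSN, module MON: monotonicity of derivations and of `Frc`
-/

set_option autoImplicit false

namespace Pool.Agent.BSN.H81

open Filter Cardinal Pool.Agent.BSig Pool.Agent.BSN

variable {τ : Tower}

theorem nat_bits_le {s a r : ℕ} (h : ∀ x, s.testBit x = true → x < a ∨ r.testBit x = true) :
    s ≤ 2 ^ a + r := by
  have h1 : s / 2 ^ a ≤ r / 2 ^ a := by
    have h2 : s / 2 ^ a &&& r / 2 ^ a = s / 2 ^ a := by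
      apply Nat.eq_of_testBit_eq
      intro i
      rw [Nat.testBit_and, ← Nat.shiftRight_eq_div_pow, ← Nat.shiftRight_eq_div_pow,
        Nat.testBit_shiftRight, Nat.testBit_shiftRight]
      rcases Bool.eq_false_or_eq_true (s.testBit (a + i)) with h3 | h3
      · rcases h _ h3 with h4 | h4
        · omega
        · rw [h3, h4]; rfl
      · rw [h3]; rfl
    rw [← h2]
    exact Nat.and_le_right
  have h3 : s = 2 ^ a * (s / 2 ^ a) + s % 2 ^ a := (Nat.div_add_mod _ _).symm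
  have h4 : s % 2 ^ a < 2 ^ a := Nat.mod_lt _ (by positivity)
  have h5 : 2 ^ a * (s / 2 ^ a) ≤ 2 ^ a * (r / 2 ^ a) := Nat.mul_le_mul_left _ h1
  have h6 : 2 ^ a * (r / 2 ^ a) ≤ r := Nat.mul_div_le _ _
  omega

theorem bits_le {s a r : (MMt τ)} (h : ∀ x, Mem x s → x < a ∨ Mem x r) : s ≤ pow2 a + r := by
  obtain ⟨f, hf, rfl⟩ := exists_mk s; obtain ⟨g, hg, rfl⟩ := exists_mk a
  obtain ⟨e, he, rfl⟩ := exists_mk r
  rw [pow2_mk, mk_add, mk_le]
  by_contra hc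
  rw [not_eventually'] at hc
  classical
  let x : ℕ → ℕ := fun n => if h : ∃ x, (f n).testBit x = true ∧ ¬ (x < g n) ∧
    ¬ (e n).testBit x = true then h.choose else 0
  have hx : ∀ᶠ n in (UU : Filter ℕ), (f n).testBit (x n) = true ∧ ¬ (x n < g n) ∧
      ¬ (e n).testBit (x n) = true := by
    filter_upwards [hc] with n hn
    have h' : ∃ x, (f n).testBit x = true ∧ ¬ (x < g n) ∧ ¬ (e n).testBit x = true := by
      by_contra hcc
      refine hn (nat_bits_le fun x hx => ?_)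
      by_contra hh
      rw [not_or] at hh
      exact hcc ⟨x, hx, hh.1, hh.2⟩
    simp only [x, dif_pos h']; exact h'.choose_spec
  have hb : (Bddt τ) x := by
    refine bdd_of_le hf ?_
    filter_upwards [hx] with n hn
    have := testBit_lt hn.1
    have := (Nat.lt_two_pow_self (n := x n)); omega
  have h1 : Mem (mk x hb) (mk f hf) := mem_mk.2 (hx.mono fun n hn => hn.1)
  rcases h _ h1 with h2 | h2
  · rw [mk_lt] at h2
    obtain ⟨n, h3, h4⟩ := (h2.and hx).exists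
    exact h4.2.1 h3
  · rw [mem_mk] at h2
    obtain ⟨n, h3, h4⟩ := (h2.and hx).exists
    exact h4.2.2 h3

theorem der_mono {φ : (Fin 5 → (MMt τ)) → Prop} {α α' k k' y y' F t : (MMt τ)} (hα : α ≤ α') (hk : k ≤ k')
    (hy : y' ≤ y) (h : Der φ α k y F t) : Der φ α' k' y' F t := by
  obtain ⟨K, hK, i, hi, P, hP, Q, hQ, w, hw, h1, h2, h3, h4, h5⟩ := h
  refine ⟨K, hK.trans hα, i, hi.trans hα, P, hP.trans hα, Q, hQ.trans hα, w, hw.trans hα, h1, h2,
    h3, ?_, ?_⟩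
  · intro x hx hm
    obtain ⟨z, hz, h⟩ := h4 x hx hm
    refine ⟨z, hz, ?_⟩
    rcases h with h | h
    · exact Or.inl h
    · exact Or.inr ⟨h.1, h.2.trans hk⟩
  · intro x hx hm
    obtain ⟨z, hz, h⟩ := h5 x hx hm
    refine ⟨z, hz, ?_⟩
    rcases h with h | h
    · exact Or.inl h
    · exact Or.inr ⟨h.1, hy.trans h.2⟩

/-- A coded subset of a set with at most `l` elements has at most `l` elements. -/
theorem crd_subset {s s' l : (MMt τ)} (hs : ∀ x, Mem x s → Mem x s') (h : Crd s' l) : Crd s l := by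
  obtain ⟨h, hb, h1, h2⟩ := h
  have hi : Int1 (fun u => Mem u h ∧ ∃ x, x ≤ s ∧ (Mem x s ∧ ∃ j, j < l ∧ u = pr x j)) := by
    refine Int1.of_delta0 ?_
    refine (IsDelta0.mem (IsTerm.var 0) (IsTerm.param h)).and ?_
    refine IsDelta0.ex (IsTerm.param s) ?_
    refine (IsDelta0.mem (IsTerm.var 0) (IsTerm.param s)).and ?_
    refine IsDelta0.exLt (IsTerm.param l) ?_
    exact IsDelta0.eq (IsTerm.var 2) (IsTerm.pr (IsTerm.var 1) (IsTerm.var 0))
  obtain ⟨e, he, hm⟩ := hi.code (pr s l + 1)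
  refine ⟨e, he.le, ?_, ?_⟩
  · intro x hx hxs
    have h3 := hs x hxs
    obtain ⟨j, hj, hj2⟩ := h1 x (mem_lt h3).le h3
    exact ⟨j, hj, (hm _).2 ⟨H75.lt_add_one_mm (H75.pr_mono hx hj.le), hj2, x, hx, hxs, j, hj, rfl⟩⟩
  · intro x hx x' hx' j hj h3 h4
    obtain ⟨_, h5, y, hy, hys, i, hi, h6⟩ := (hm _).1 h3
    obtain ⟨_, h7, y', hy', hys', i', hi', h8⟩ := (hm _).1 h4
    obtain ⟨a1, -⟩ := pr_inj.1 h6
    obtain ⟨b1, -⟩ := pr_inj.1 h8
    rw [← a1] at hys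
    rw [← b1] at hys'
    exact h2 x (mem_lt (hs x hys)).le x' (mem_lt (hs x' hys')).le j hj h5 h7

theorem frc_mono {φ : (Fin 5 → (MMt τ)) → Prop} {α α' k k' m m' r t : (MMt τ)} (hα : α ≤ α') (hk : k ≤ k')
    (hm : m' ≤ m) (h : Frc φ α k m r t) : Frc φ α' k' m' r t := by
  intro s' _ ⟨h1, h2, h3⟩ hK
  have hi : Int1 (fun x => Mem x s' ∧ (x ≤ α + 1 ∨ Mem x r)) := by
    refine Int1.of_delta0 ?_
    refine (IsDelta0.mem (IsTerm.var 0) (IsTerm.param s')).and ?_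
    exact (IsDelta0.le (IsTerm.var 0) (IsTerm.param (α + 1))).or
      (IsDelta0.mem (IsTerm.var 0) (IsTerm.param r))
  obtain ⟨s, -, hs⟩ := hi.code s'
  have hs1 : ∀ x, Mem x s ↔ Mem x s' ∧ (x ≤ α + 1 ∨ Mem x r) := by
    intro x
    rw [hs]
    exact ⟨fun h => h.2, fun h => ⟨mem_lt h.1, h⟩⟩
  have hsub : ∀ x, Mem x s → Mem x s' := fun x hx => ((hs1 x).1 hx).1
  have e2 : α + 2 = α + 1 + 1 := by rw [add_assoc, one_add_one_eq_two]
  refine h s ?_ ⟨?_, ?_, ?_⟩ ?_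
  · refine bits_le fun x hx => ?_
    rcases ((hs1 x).1 hx).2 with h4 | h4
    · left
      rw [e2]
      exact H75.lt_add_one_mm h4
    · exact Or.inr h4
  · intro x hx hxr
    exact (hs1 x).2 ⟨h1 x hx hxr, Or.inr hxr⟩
  · exact H75.crd_mono _ _ _ hm (crd_subset hsub h2)
  · rintro ⟨x, _, ⟨h4, h5⟩ | ⟨h4, h5⟩⟩
    · have h6 := hsub _ h4
      exact h3 ⟨x, (H75.le_two_mul x).trans (mem_lt h6).le, Or.inl ⟨h6, hsub _ h5⟩⟩
    · have h6 := hsub _ h4
      exact h3 ⟨x, ((H75.le_two_mul x).trans (le_add_right' _ 1)).trans (mem_lt h6).le,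
        Or.inr ⟨h6, hsub _ h5⟩⟩
  · intro F hF ⟨h4, h5, h6⟩
    obtain ⟨x, hx, hc⟩ := hK F (hF.trans hα) ⟨H75.crd_mono _ _ _ hk h4, h5, der_mono hα hk hm h6⟩
    refine ⟨x, hx, ?_⟩
    rcases hc with ⟨h7, h8⟩ | ⟨h7, h8⟩
    · left
      refine ⟨h7, (hs1 _).2 ⟨h8, Or.inl ?_⟩⟩
      have h9 : 2 * x ≤ α := (mem_lt h7).le.trans hF
      exact PAExp.add_le_add' _ _ 1 h9
    · right
      refine ⟨h7, (hs1 _).2 ⟨h8, Or.inl ?_⟩⟩
      have h9 : 2 * x + 1 ≤ α := (mem_lt h7).le.trans hF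
      exact ((le_add_right' _ 1).trans h9).trans (le_add_right' _ 1)

theorem mono : MonoStmt τ := by
  intro φ _
  exact ⟨fun α α' k k' y y' F t h1 h2 h3 h4 => der_mono h1 h2 h3 h4,
    fun α α' k k' m m' r t h1 h2 h3 h4 => frc_mono h1 h2 h3 h4⟩

end Pool.Agent.BSN.H81
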